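import Pool.Agent.Work.MLCM.C82

set_option autoImplicit false

namespace Pool.Agent.Results.MP_c6f924_an.LimbSum

open Metric Set N62a1eb23

/-- There is a constant `C` such that, for every finite set `R` of parameters `r` such that
`z ^ 2 + r` has a point `b` of exact period `n` with multiplier `exp (2 π i p / q)`, `0 < p < q`
coprime, `3 ≤ q`, and `N r = n q`, the sum over `R` of `diam (L r) ^ 2 / N r` is at most `C`, where
`L r` is the Mandelbrot set `M` without the connected component of `0` in `M ∖ {r}` (the limb at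
`r`, of the hyperbolic component of period `n` with the point `r` on its boundary). -/
theorem result : ∃ C : ℝ, ∀ (R : Finset ℂ) (N : ℂ → ℕ),
    (∀ r ∈ R, ∃ (n p q : ℕ) (b : ℂ), 0 < n ∧ 0 < p ∧ p < q ∧ 3 ≤ q ∧ Nat.Coprime p q ∧
      Function.minimalPeriod (fun z : ℂ => z ^ 2 + r) b = n ∧
      deriv ((fun z : ℂ => z ^ 2 + r)^[n]) b = Complex.exp (2 * Real.pi * (p / q) * Complex.I) ∧
      N r = n * q) →
    ∑ r ∈ R, diam (mandelbrotSet \ connectedComponentIn (mandelbrotSet \ {r}) 0) ^ 2 / N r ≤ C := by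
  obtain ⟨C, hC⟩ := Pool.Agent.Work.MLC.Cap.limb_all
  refine ⟨C, fun R N hR => Pool.Agent.Work.MLC.Cap.capI_sum hC R N fun r hr => ?_⟩
  obtain ⟨n, p, q, b, h1, h2, h3, h4, h5, h6, h7, h8⟩ := hR r hr
  exact ⟨n, q, h4, ⟨p, b, h1, h2, h3, h5, h6, h7⟩, h8⟩

end Pool.Agent.Results.MP_c6f924_an.LimbSum
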