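import Pool.Prelude.Def_F_c31e40fa
import Pool.Agent.Work.MLCM.C82

set_option autoImplicit false

/-! # Local connectivity of the Mandelbrot set at some infinitely renormalizable parameters

The Mandelbrot set `M` is locally connected at `c₀` if `c₀` is separated from `0` in `M` by points
`r` for which `z ^ 2 + r` has a neutral cycle of arbitrarily large period `n` and multiplier
`exp (2 π i p / q)` such that `16 log 2 n² q ≤ min (p, q - p)²` or `q ≥ 10 ^ 27 n ^ 12`. The set of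
these `c₀` is residual in the boundary of `M`, and the pieces of `M` cut off by such `r` are a
neighbourhood basis. -/

namespace Pool.Agent.Results.MP_c6f924_an.LocalConn

open N62a1eb23 Set Filter Topology Metric

theorem result : ∃ S ⊆ frontier mandelbrotSet,
    (∀ c₀ : ℂ, c₀ ∈ S ↔ c₀ ∈ mandelbrotSet ∧ ∀ N : ℕ, ∃ (n p q : ℕ) (r b : ℂ), N ≤ n ∧
      0 < n ∧ 0 < p ∧ p < q ∧ Nat.Coprime p q ∧ (fun z : ℂ => z ^ 2 + r)^[n] b = b ∧
      deriv ((fun z : ℂ => z ^ 2 + r)^[n]) b = Complex.exp (2 * Real.pi * (p / q) * Complex.I) ∧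
      c₀ ≠ r ∧ c₀ ∉ connectedComponentIn (mandelbrotSet \ {r}) 0 ∧
      (16 * Real.log 2 * (n : ℝ) ^ 2 * q ≤ (min (p : ℝ) (q - p)) ^ 2 ∨
        10 ^ 27 * (n : ℝ) ^ 12 ≤ q)) ∧
    (∃ G ⊆ S, IsGδ G ∧ frontier mandelbrotSet ⊆ closure G) ∧
    (∀ U : Set ℂ, IsOpen U → (U ∩ frontier mandelbrotSet).Nonempty → ¬ (S ∩ U).Countable) ∧
    ∀ c₀ ∈ S, ∀ U ∈ 𝓝 c₀, ∃ r : ℂ, ∃ V ⊆ U,
      V = mandelbrotSet \ connectedComponentIn (mandelbrotSet \ {r}) 0 ∧ IsCompact V ∧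
      IsConnected V ∧ V ∈ 𝓝[mandelbrotSet] c₀ :=
  Pool.Agent.Work.MLC.res31_localConn

end Pool.Agent.Results.MP_c6f924_an.LocalConn
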