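import Pool.Agent.Work.MLCM.C93
import Pool.Agent.Work.MLCM.C92

set_option autoImplicit false

namespace Pool.Agent.Results.MP_c6f924_an.QuasiEvery

open Filter Topology Set N62a1eb23

/-- zero Hausdorff measure for the gauge function `(1 / log (1 / t)) ^ s` -/
def Null (s : ℕ) (E : Set ℝ) : Prop := ∀ ε > 0, ∃ a l : ℕ → ℝ, (∀ i, 0 < l i ∧ l i < 1) ∧
  E ⊆ (⋃ i, Icc (a i) (a i + l i)) ∧ Summable (fun i => (1 / Real.log (1 / l i)) ^ s) ∧
  ∑' i, (1 / Real.log (1 / l i)) ^ s < ε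

/-- the Mandelbrot set is locally connected at `c`: every neighbourhood of `c` contains a compact
connected subset of the Mandelbrot set which is a neighbourhood of `c` in the Mandelbrot set -/
def LCAt (c : ℂ) : Prop :=
  ∀ U ∈ 𝓝 c, ∃ K ⊆ mandelbrotSet ∩ U, IsCompact K ∧ IsConnected K ∧ K ∈ 𝓝[mandelbrotSet] c

/-- the points of `{1 < |z|}` close to `exp (2 π i θ)` -/
noncomputable def near (θ : ℝ) : Filter ℂ := 𝓝[{z | 1 < ‖z‖}] (Complex.exp (2 * Real.pi * θ * Complex.I))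

/-- `α < β` are the two external angles at the root of a hyperbolic component of period `m`
(`0`, `1` for the main cardioid): both have exact period `m` under doubling modulo `1`, and for all
`θ` between them and all `i` the points `2 ^ i * α`, `2 ^ i * β` of the circle `ℝ / ℤ` are in the
same component of the circle minus the two points `θ / 2`, `(θ + 1) / 2` -/
structure Wake (m : ℕ) (α β : ℝ) : Prop where
  pos : 0 < m
  nonneg : 0 ≤ α
  lt : α < β
  le_one : β ≤ 1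
  per : ∃ a b : ℤ, (2 ^ m - 1) * α = a ∧ (2 ^ m - 1) * β = b
  exact : ∀ d, 0 < d → d < m →
    (¬ ∃ a : ℤ, (2 ^ d - 1) * α = a) ∧ ¬ ∃ b : ℤ, (2 ^ d - 1) * β = b
  side : ∀ θ, α < θ → θ < β → ∀ i : ℕ, ∃ j k l : ℤ,
    (θ + j) / 2 < 2 ^ i * α + k ∧ 2 ^ i * α + k < (θ + j + 1) / 2 ∧
    (θ + j) / 2 < 2 ^ i * β + l ∧ 2 ^ i * β + l < (θ + j + 1) / 2

/-- the angles of the copy of the Mandelbrot set at this root (Douady's tuning): in the binary
expansion of an angle replace the digits `0`, `1` by the periods, of length `m`, of the binary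
expansions of `α`, `β` -/
def Tuned (m : ℕ) (α β : ℝ) : Set ℝ :=
  {θ | ∃ e : ℕ → ℝ, (∀ i, e i = α ∨ e i = β) ∧
    HasSum (fun i => (2 ^ m - 1) * e i / 2 ^ (m * (i + 1))) θ}

/-- `θ` is infinitely renormalizable: an angle of copies of arbitrarily large period -/
def InfRen (θ : ℝ) : Prop := ∀ N : ℕ, ∃ m ≥ N, ∃ α β : ℝ, Wake m α β ∧ θ ∈ Tuned m α β

lemma null_succ {s : ℕ} {E : Set ℝ} (h : Null s E) : Null (s + 1) E := by
  intro ε hε
  obtain ⟨a, l, h1, h2, h3, h4⟩ := h (min ε 1) (by positivity)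
  have hpos : ∀ i, 0 ≤ 1 / Real.log (1 / l i) := fun i => by
    have h5 : 1 ≤ 1 / l i := by
      rw [le_div_iff₀ (h1 i).1]
      linarith [(h1 i).2]
    exact div_nonneg zero_le_one (Real.log_nonneg h5)
  have hle : ∀ i, (1 / Real.log (1 / l i)) ^ (s + 1) ≤ (1 / Real.log (1 / l i)) ^ s := by
    intro i
    have h5 : (1 / Real.log (1 / l i)) ^ s < 1 :=
      lt_of_le_of_lt (h3.le_tsum i fun j _ => pow_nonneg (hpos j) s) (h4.trans_le (min_le_right _ _))
    have h6 : 1 / Real.log (1 / l i) ≤ 1 := by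
      by_contra hcon
      rw [not_le] at hcon
      exact absurd (one_le_pow₀ hcon.le (n := s)) (not_le.2 h5)
    rw [pow_succ]
    exact mul_le_of_le_one_right (pow_nonneg (hpos i) s) h6
  have hsum : Summable (fun i => (1 / Real.log (1 / l i)) ^ (s + 1)) :=
    Summable.of_nonneg_of_le (fun i => pow_nonneg (hpos i) _) hle h3
  exact ⟨a, l, h1, h2, hsum, (hsum.tsum_le_tsum hle h3).trans_lt (h4.trans_le (min_le_left _ _))⟩

lemma null_of_one {E : Set ℝ} (h : Null 1 E) (s : ℕ) : Null (s + 1) E := by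
  induction s with
  | zero => exact h
  | succ s ih => exact null_succ ih

lemma null_union {s : ℕ} {E F : Set ℝ} (hE : Null s E) (hF : Null s F) : Null s (E ∪ F) := by
  intro ε hε
  obtain ⟨a, l, h1, h2, h3, h4⟩ := hE (ε / 2) (by linarith)
  obtain ⟨a', l', h1', h2', h3', h4'⟩ := hF (ε / 2) (by linarith)
  have e := (Equiv.natSumNatEquivNat : ℕ ⊕ ℕ ≃ ℕ)
  let g : ℕ ⊕ ℕ → ℝ := fun u => (1 / Real.log (1 / Sum.elim l l' u)) ^ s
  have hg : Summable g := by
    refine Summable.sum _ ?_ ?_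
    · simpa [g, Function.comp_def] using h3
    · simpa [g, Function.comp_def] using h3'
  have hgt : ∑' u, g u = ∑' i, (1 / Real.log (1 / l i)) ^ s +
      ∑' i, (1 / Real.log (1 / l' i)) ^ s := by
    rw [Summable.tsum_sum (f := g)]
    · rfl
    · simpa [g, Function.comp_def] using h3
    · simpa [g, Function.comp_def] using h3'
  refine ⟨fun n => Sum.elim a a' (e.symm n), fun n => Sum.elim l l' (e.symm n), ?_, ?_, ?_, ?_⟩
  · intro n
    show 0 < Sum.elim l l' (e.symm n) ∧ Sum.elim l l' (e.symm n) < 1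
    rcases e.symm n with i | i
    · exact h1 i
    · exact h1' i
  · rintro x (hx | hx)
    · obtain ⟨i, hi⟩ := mem_iUnion.1 (h2 hx)
      exact mem_iUnion.2 ⟨e (Sum.inl i), by simpa using hi⟩
    · obtain ⟨i, hi⟩ := mem_iUnion.1 (h2' hx)
      exact mem_iUnion.2 ⟨e (Sum.inr i), by simpa using hi⟩
  · exact (e.symm.summable_iff (f := g)).2 hg
  · have h5 : ∑' n, g (e.symm n) = ∑' u, g u := e.symm.tsum_eq g
    calc ∑' n, (1 / Real.log (1 / Sum.elim l l' (e.symm n))) ^ s = ∑' u, g u := h5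
      _ < ε := by rw [hgt]; linarith

lemma null_mono {s : ℕ} {E F : Set ℝ} (h : E ⊆ F) (hF : Null s F) : Null s E := by
  intro ε hε
  obtain ⟨a, l, h1, h2, h3, h4⟩ := hF ε hε
  exact ⟨a, l, h1, h.trans h2, h3, h4⟩

lemma exists_angle {ψ : ℂ → ℂ} {M : Set ℂ} (h1 : ContinuousOn ψ {z | 1 < ‖z‖})
    (h2 : BijOn ψ {z | 1 < ‖z‖} Mᶜ)
    (h3 : Tendsto (fun z => ψ z / z) (Bornology.cobounded ℂ) (𝓝 1)) {c : ℂ} (hc : c ∈ M)
    (hc' : c ∉ interior M) : ∃ θ ∈ Ico (0 : ℝ) 1, MapClusterPt c (near θ) ψ := by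
  have h4 : c ∈ closure Mᶜ := by rwa [closure_compl, mem_compl_iff]
  obtain ⟨u, hu, huc⟩ := mem_closure_iff_seq_limit.1 h4
  have h5 : ∀ n, ∃ z ∈ {z : ℂ | 1 < ‖z‖}, ψ z = u n := fun n => h2.surjOn (hu n)
  choose z hz hzu using h5
  -- the points are bounded
  obtain ⟨B, hB⟩ := (Metric.isBounded_range_of_tendsto u huc).exists_norm_le
  have h6 := h3.eventually (Metric.ball_mem_nhds (1 : ℂ) (by norm_num : (0 : ℝ) < 1 / 2))
  have h7 : Bornology.IsBounded {z : ℂ | ¬ (ψ z / z ∈ Metric.ball (1 : ℂ) (1 / 2))} := by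
    rw [← Bornology.isCobounded_compl_iff]
    have h8 : {z : ℂ | ¬ (ψ z / z ∈ Metric.ball (1 : ℂ) (1 / 2))}ᶜ =
        {z | ψ z / z ∈ Metric.ball (1 : ℂ) (1 / 2)} := by
      ext z
      rw [mem_compl_iff]
      exact not_not
    rw [h8]
    exact h6
  obtain ⟨R, hR⟩ := h7.exists_norm_le
  have hzB : ∀ n, ‖z n‖ ≤ max R (2 * B) := by
    intro n
    by_contra hcon
    rw [not_le, max_lt_iff] at hcon
    have h8 : ψ (z n) / z n ∈ Metric.ball (1 : ℂ) (1 / 2) := by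
      by_contra h9
      exact absurd (hR (z n) h9) (not_le.2 hcon.1)
    have hz1 : (1 : ℝ) < ‖z n‖ := hz n
    have h9 : z n ≠ 0 := by
      intro h10
      rw [h10, norm_zero] at hz1
      linarith
    rw [Metric.mem_ball, dist_eq_norm] at h8
    have h10 : ‖ψ (z n) - z n‖ < ‖z n‖ / 2 := by
      have h11 : ψ (z n) - z n = (ψ (z n) / z n - 1) * z n := by field_simp
      rw [h11, norm_mul]
      have : 0 < ‖z n‖ := by linarith
      nlinarith
    have h11 : ‖ψ (z n)‖ ≤ B := by rw [hzu]; exact hB _ ⟨n, rfl⟩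
    have h12 : ‖z n‖ ≤ ‖ψ (z n)‖ + ‖ψ (z n) - z n‖ := by
      have h13 : z n = ψ (z n) - (ψ (z n) - z n) := by ring
      calc ‖z n‖ = ‖ψ (z n) - (ψ (z n) - z n)‖ := by rw [← h13]
        _ ≤ _ := norm_sub_le _ _
    linarith [hcon.2]
  obtain ⟨w, -, φ, hφ, hw⟩ := tendsto_subseq_of_bounded
    (Metric.isBounded_closedBall (x := (0 : ℂ)) (r := max R (2 * B)))
    (fun n => by simpa using hzB n)
  have hw1 : 1 ≤ ‖w‖ := ge_of_tendsto' hw.norm fun n => le_of_lt (hz (φ n))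
  have huφ : Tendsto (fun n => ψ (z (φ n))) atTop (𝓝 c) := by
    simp only [hzu]
    exact huc.comp hφ.tendsto_atTop
  have hw2 : ‖w‖ = 1 := by
    rcases eq_or_lt_of_le hw1 with h8 | h8
    · exact h8.symm
    · exfalso
      have h9 : ContinuousAt ψ w := h1.continuousAt
        ((isOpen_lt continuous_const continuous_norm).mem_nhds h8)
      have h10 : ψ w = c := tendsto_nhds_unique (h9.tendsto.comp hw) huφ
      exact h2.mapsTo h8 (h10 ▸ hc)
  set t : ℝ := Complex.arg w / (2 * Real.pi) with ht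
  have hexp : Complex.exp (2 * Real.pi * (Int.fract t : ℝ) * Complex.I) = w := by
    have hpi : (Real.pi : ℂ) ≠ 0 := by exact_mod_cast Real.pi_ne_zero
    have h8 : (2 * Real.pi * (Int.fract t : ℝ) * Complex.I : ℂ) =
        Complex.arg w * Complex.I - (⌊t⌋ : ℤ) * (2 * Real.pi * Complex.I) := by
      rw [Int.fract, ht]
      push_cast
      field_simp
    rw [h8, Complex.exp_sub, Complex.exp_int_mul_two_pi_mul_I, div_one]
    have h9 := Complex.norm_mul_exp_arg_mul_I w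
    rwa [hw2, Complex.ofReal_one, one_mul] at h9
  refine ⟨Int.fract t, ⟨Int.fract_nonneg t, Int.fract_lt_one t⟩, ?_⟩
  unfold near
  rw [hexp]
  have h8 : Tendsto (fun n => z (φ n)) atTop (𝓝[{z : ℂ | 1 < ‖z‖}] w) :=
    tendsto_nhdsWithin_iff.2 ⟨hw, Eventually.of_forall fun n => hz (φ n)⟩
  exact MapClusterPt.of_comp h8 (Tendsto.mapClusterPt huφ)

lemma lcAt_interior {c : ℂ} (hc : c ∈ interior mandelbrotSet) : LCAt c := by
  intro U hU
  obtain ⟨r, hr, hr'⟩ := Metric.nhds_basis_closedBall.mem_iff.1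
    (inter_mem (mem_interior_iff_mem_nhds.1 hc) hU)
  exact ⟨Metric.closedBall c r, hr', isCompact_closedBall c r,
    (convex_closedBall c r).isConnected ⟨c, Metric.mem_closedBall_self hr.le⟩,
    mem_nhdsWithin_of_mem_nhds (Metric.closedBall_mem_nhds c hr)⟩

lemma wake_iff {m : ℕ} {α β : ℝ} (h : Pool.Agent.Work.MLC.Shp.Wake m α β) : Wake m α β := by
  obtain ⟨a, ha⟩ := h.per
  obtain ⟨b, hb⟩ := h.per'
  refine ⟨h.pos, h.nonneg, h.lt, h.le_one, ⟨a, b, ha, hb⟩,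
    fun d h0 h1 => ⟨h.exact d h0 h1, h.exact' d h0 h1⟩, fun θ h0 h1 i => ?_⟩
  obtain ⟨j, k, l, h2, h3, h4, h5⟩ := h.side θ h0 h1 i
  refine ⟨j, -k, -l, ?_, ?_, ?_, ?_⟩ <;> push_cast <;> linarith

lemma infRen_iff {θ : ℝ} (h : Pool.Agent.Work.MLC.Shp.InfRen θ) : InfRen θ := by
  intro N
  obtain ⟨m, hm, α, β, hW, hT⟩ := h N
  exact ⟨m, hm, α, β, wake_iff hW, hT⟩

lemma not_null (s : ℕ) : ¬ Null s {θ | θ ∈ Ico (0 : ℝ) 1 ∧ Pool.Agent.Work.MLC.Shp.InfRen θ} :=
  Pool.Agent.Work.MLC.Uni.not_nullS_infRen s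

/-- **The Mandelbrot set `M` is locally connected at quasi-every external angle.** There are a
conformal map `ψ` of `{1 < |z|}` onto the complement of `M` with `ψ z / z → 1` at infinity and a set
`E` of angles in `[0, 1)`, of zero Hausdorff measure for the gauge function `1 / log (1 / t)`, such
that for all other angles `θ` the map `ψ` has a limit at `exp (2 π i θ)` (unrestricted, from
`{1 < |z|}`) and `M` is locally connected at the limit, and every point of `M` at which `M` is not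
locally connected is a limit point of `ψ` at `exp (2 π i θ)` for some `θ` in `E`. The infinitely
renormalizable angles outside of `E` are not a set of zero measure for any of the gauge functions
`(1 / log (1 / t)) ^ s`. -/
theorem result : ∃ (ψ : ℂ → ℂ) (E : Set ℝ),
    DifferentiableOn ℂ ψ {z | 1 < ‖z‖} ∧ BijOn ψ {z | 1 < ‖z‖} mandelbrotSetᶜ ∧
    Tendsto (fun z => ψ z / z) (Bornology.cobounded ℂ) (𝓝 1) ∧
    E ⊆ Ico 0 1 ∧ Null 1 E ∧
    (∀ θ ∈ Ico (0 : ℝ) 1, θ ∉ E → ∃ c ∈ mandelbrotSet, Tendsto ψ (near θ) (𝓝 c) ∧ LCAt c) ∧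
    (∀ c ∈ mandelbrotSet, ¬ LCAt c → ∃ θ ∈ E, MapClusterPt c (near θ) ψ) ∧
    ∀ s : ℕ, ¬ Null s {θ | θ ∈ Ico (0 : ℝ) 1 ∧ θ ∉ E ∧ InfRen θ} := by
  have hnull : Null 1 {θ | θ ∈ Ico (0 : ℝ) 1 ∧
      ¬ Pool.Agent.Work.MLC.Cap.Good Pool.Agent.Work.MLC.Psi θ} := by
    intro ε hε
    obtain ⟨a, l, h1, h2, h3, h4⟩ := Pool.Agent.Work.MLC.Uni.uni_all ε hε
    exact ⟨a, l, h1, h2, by simpa only [pow_one] using h3, by simpa only [pow_one] using h4⟩
  have hgood : ∀ θ ∈ Ico (0 : ℝ) 1,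
      θ ∉ {θ | θ ∈ Ico (0 : ℝ) 1 ∧ ¬ Pool.Agent.Work.MLC.Cap.Good Pool.Agent.Work.MLC.Psi θ} →
      ∃ c ∈ mandelbrotSet, Tendsto Pool.Agent.Work.MLC.Psi (near θ) (𝓝 c) ∧ LCAt c := by
    intro θ hθ hE
    by_contra hcon
    exact hE ⟨hθ, hcon⟩
  refine ⟨Pool.Agent.Work.MLC.Psi,
    {θ | θ ∈ Ico (0 : ℝ) 1 ∧ ¬ Pool.Agent.Work.MLC.Cap.Good Pool.Agent.Work.MLC.Psi θ},
    Pool.Agent.Work.MLC.differentiableOn_Psi, Pool.Agent.Work.MLC.bijOn_Psi,
    Pool.Agent.Work.MLC.tendsto_Psi_div, fun θ hθ => hθ.1, hnull, hgood,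
    fun c hc hL => ?_, fun s h => ?_⟩
  · obtain ⟨θ, hθ, hcl⟩ := exists_angle
      Pool.Agent.Work.MLC.differentiableOn_Psi.continuousOn Pool.Agent.Work.MLC.bijOn_Psi
      Pool.Agent.Work.MLC.tendsto_Psi_div hc fun hi => hL (lcAt_interior hi)
    refine ⟨θ, ?_, hcl⟩
    by_contra hE
    obtain ⟨c', -, hlim, hL'⟩ := hgood θ hθ hE
    have : c = c' := by
      by_contra hne
      obtain ⟨V, V', hV, hV', hcV, hcV', hd⟩ := t2_separation hne
      have h1 := hlim (hV'.mem_nhds hcV')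
      have h2 := hcl.frequently (hV.mem_nhds hcV)
      obtain ⟨z, hz, hz'⟩ := (h2.and_eventually h1).exists
      exact disjoint_left.1 hd hz hz'
    exact hL (this ▸ hL')
  · -- the exponent `0` is void
    rcases Nat.eq_zero_or_pos s with rfl | hs
    · obtain ⟨a, l, -, -, h3, -⟩ := h 1 one_pos
      simp only [pow_zero] at h3
      exact (summable_const_iff (1 : ℝ)).1 h3 |> one_ne_zero
    obtain ⟨t, rfl⟩ : ∃ t, s = t + 1 := ⟨s - 1, by omega⟩
    refine not_null (t + 1) (null_mono ?_ (null_union (null_of_one hnull t) h))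
    rintro θ ⟨h1, h2⟩
    by_cases h3 : Pool.Agent.Work.MLC.Cap.Good Pool.Agent.Work.MLC.Psi θ
    · exact Or.inr ⟨h1, fun h4 => h4.2 h3, infRen_iff h2⟩
    · exact Or.inl ⟨h1, h3⟩

end Pool.Agent.Results.MP_c6f924_an.QuasiEvery
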