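import Pool.Agent.Work.MLCM.C82
import Pool.Agent.Work.MLCM.C83

set_option autoImplicit false

namespace Pool.Agent.Results.MP_c6f924_an.SatelliteTowers

open Filter Topology Set MeasureTheory N62a1eb23
open scoped ENNReal

/-- `z ^ 2 + c` has a point `b` of exact period `n` and multiplier `ρ` -/
def HasPoint (n : ℕ) (c ρ : ℂ) : Prop := ∃ b : ℂ, 0 < n ∧
  Function.minimalPeriod (fun z : ℂ => z ^ 2 + c) b = n ∧
  deriv ((fun z : ℂ => z ^ 2 + c)^[n]) b = ρ

/-- the parameters `c` such that `z ^ 2 + c` has an attracting point of exact period `n` -/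
def Att (n : ℕ) : Set ℂ := {c | ∃ ρ, HasPoint n c ρ ∧ ‖ρ‖ < 1}

/-- the product of the denominators of `x 0, ..., x (k - 1)` -/
def per (x : ℕ → ℚ) (k : ℕ) : ℕ := ∏ i ∈ Finset.range k, (x i).den

/-- `r k` is the parameter of internal angle `x k` on the boundary of the component number `k` of
the tower of satellites of internal angles `x 0, x 1, ...`, and the root of the component number
`k + 1`, which is a connected component of `Att (per x (k + 1))` -/
structure Tower (x : ℕ → ℚ) (r : ℕ → ℂ) : Prop where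
  point : ∀ k, HasPoint (per x k) (r k) (Complex.exp (2 * Real.pi * x k * Complex.I))
  next : ∀ k, ∃ c ∈ Att (per x (k + 1)),
    r k ∈ closure (connectedComponentIn (Att (per x (k + 1))) c) ∧
    r (k + 1) ∈ closure (connectedComponentIn (Att (per x (k + 1))) c)

/-- the limb at `r`: the Mandelbrot set `M` without the connected component of `0` in `M ∖ {r}` -/
def Limb (r : ℂ) : Set ℂ := mandelbrotSet \ connectedComponentIn (mandelbrotSet \ {r}) 0

/-- the Mandelbrot set is locally connected at `c`: every neighbourhood of `c` contains a compact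
connected subset of the Mandelbrot set which is a neighbourhood of `c` in the Mandelbrot set -/
def LCAt (c : ℂ) : Prop :=
  ∀ U ∈ 𝓝 c, ∃ K ⊆ mandelbrotSet ∩ U, IsCompact K ∧ IsConnected K ∧ K ∈ 𝓝[mandelbrotSet] c

/-- For every measure `μ` on the sequences of rationals and for `μ`-almost every sequence `x` in
`(0, 1)` such that the sum of `1 / (q 0 ... q k * μ [x 0, ..., x k])` over the `k` with `q k ≥ 3`,
`q k` the denominator of `x k`, is infinite: the limbs of the tower of satellites of internal angles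
`x 0, x 1, ...` shrink to a point `c`, and the Mandelbrot set is locally connected at `c`. -/
theorem result (μ : Measure (ℕ → ℚ)) : ∀ᵐ x ∂μ, (∀ k, 0 < x k ∧ x k < 1) →
    ∑' k, (if 3 ≤ (x k).den then 1 / (per x (k + 1) * μ {y | ∀ i ≤ k, y i = x i}) else 0) = ∞ →
    ∃ r : ℕ → ℂ, Tower x r ∧ Tendsto (fun k => Metric.diam (Limb (r k))) atTop (𝓝 0) ∧
      ∃ c, ⋂ k, Limb (r k) = {c} ∧ LCAt c := by
  obtain ⟨C, hC⟩ := Pool.Agent.Work.MLC.Cap.limb_all
  filter_upwards [Pool.Agent.Work.MLC.Tw.tower_all hC μ] with x hx h01 htop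
  obtain ⟨r, h1, h2, h3, c, h4, h5⟩ := hx h01 (by
    rw [← htop]
    refine tsum_congr fun k => ?_
    have e : {y : ℕ → ℚ | ∀ i < k + 1, y i = x i} = {y | ∀ i ≤ k, y i = x i} :=
      Set.ext fun y => ⟨fun h i hi => h i (Nat.lt_succ_of_le hi),
        fun h i hi => h i (Nat.le_of_lt_succ hi)⟩
    rw [e]
    rfl)
  exact ⟨r, ⟨fun k => h1 k, fun k => h2 k⟩, h3, c, h4, h5⟩

end Pool.Agent.Results.MP_c6f924_an.SatelliteTowers
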